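import Pool.Agent.H82.LB.Defs

/-!
# LB: the kernel `-log |1 - a \bar b|` (blocks A and B)
-/

set_option autoImplicit false

namespace H82.LB

open ComplexConjugate

theorem kr_one_sub_ne {w : ℂ} (hw : ‖w‖ < 1) : 1 - w ≠ 0 := by
  intro h
  rw [sub_eq_zero] at h
  rw [← h, norm_one] at hw
  exact lt_irrefl _ hw

theorem kr_hasSum {w : ℂ} (hw : ‖w‖ < 1) :
    HasSum (fun n : ℕ => (w ^ n / n).re) (-Real.log ‖1 - w‖) := by
  have h := Complex.hasSum_re (Complex.hasSum_taylorSeries_neg_log hw)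
  rw [Complex.neg_re, Complex.log_re] at h
  exact h

/-- block A -/
theorem kr_posdef {ι : Type*} [Fintype ι] (c : ι → ℝ) (z : ι → ℂ) (hz : ∀ i, ‖z i‖ < 1) :
    0 ≤ ∑ i, ∑ j, c i * c j * kr (z i) (z j) := by
  have hw : ∀ i j, ‖z i * conj (z j)‖ < 1 := by
    intro i j
    rw [norm_mul, RCLike.norm_conj]
    have h1 := hz i
    have h2 := hz j
    have h3 := norm_nonneg (z i)
    have h4 := norm_nonneg (z j)
    nlinarith
  have h1 : HasSum (fun n : ℕ => ∑ i, ∑ j, c i * c j * ((z i * conj (z j)) ^ n / n).re)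
      (∑ i, ∑ j, c i * c j * kr (z i) (z j)) :=
    hasSum_sum fun i _ => hasSum_sum fun j _ => (kr_hasSum (hw i j)).mul_left (c i * c j)
  refine h1.nonneg fun n => ?_
  have h2 : ∑ i, ∑ j, c i * c j * ((z i * conj (z j)) ^ n / n).re =
      Complex.normSq (∑ i, (c i : ℂ) * z i ^ n) / n := by
    have h3 : ∀ i j, c i * c j * ((z i * conj (z j)) ^ n / n).re =
        (((c i : ℂ) * z i ^ n) * conj ((c j : ℂ) * z j ^ n)).re / n := by
      intro i j
      have h4 : ((c i : ℂ) * z i ^ n) * conj ((c j : ℂ) * z j ^ n) =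
          ((c i * c j : ℝ) : ℂ) * (z i * conj (z j)) ^ n := by
        rw [map_mul, map_pow, Complex.conj_ofReal, mul_pow]
        push_cast
        ring
      rw [h4, Complex.re_ofReal_mul]
      have h5 : ((z i * conj (z j)) ^ n / (n : ℂ)).re = ((z i * conj (z j)) ^ n).re / n := by
        rw [← Complex.ofReal_natCast, Complex.div_ofReal_re]
      rw [h5]
      ring
    simp only [h3]
    rw [← Complex.ofReal_re (Complex.normSq _), ← Complex.mul_conj, map_sum, Finset.sum_mul_sum,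
      Complex.re_sum, Finset.sum_div]
    refine Finset.sum_congr rfl fun i _ => ?_
    rw [Complex.re_sum, Finset.sum_div]
  rw [h2]
  exact div_nonneg (Complex.normSq_nonneg _) (Nat.cast_nonneg _)

theorem kr_disc {a b : ℂ} (h : 0 ≤ (1 - ‖a‖ ^ 2) * (1 - ‖b‖ ^ 2)) :
    ‖a - b‖ ≤ ‖1 - a * conj b‖ := by
  rw [← Real.sqrt_sq (norm_nonneg (a - b)), ← Real.sqrt_sq (norm_nonneg (1 - a * conj b))]
  apply Real.sqrt_le_sqrt
  rw [← Complex.normSq_eq_norm_sq, ← Complex.normSq_eq_norm_sq]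
  rw [← Complex.normSq_eq_norm_sq, ← Complex.normSq_eq_norm_sq] at h
  simp only [Complex.normSq_apply, Complex.sub_re, Complex.sub_im, Complex.mul_re, Complex.mul_im,
    Complex.conj_re, Complex.conj_im, Complex.one_re, Complex.one_im] at h ⊢
  nlinarith

/-- block B -/
theorem norm_sub_le (a b : ℂ) :
    ‖a - b‖ ≤ max 1 ‖a‖ * max 1 ‖b‖ * ‖1 - rf a * starRingEnd ℂ (rf b)‖ := by
  have hsq : ∀ x : ℂ, ‖x‖ ≤ 1 → ‖x‖ ^ 2 ≤ 1 := fun x hx => by
    have := norm_nonneg x
    nlinarith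
  have hsq' : ∀ x : ℂ, ¬ ‖x‖ ≤ 1 → 1 ≤ ‖x‖ ^ 2 := fun x hx => by
    rw [not_le] at hx
    nlinarith
  have hne : ∀ x : ℂ, ¬ ‖x‖ ≤ 1 → x ≠ 0 := by
    rintro x hx rfl
    exact hx (by rw [norm_zero]; exact zero_le_one)
  by_cases ha : ‖a‖ ≤ 1 <;> by_cases hb : ‖b‖ ≤ 1
  · rw [rf, rf, if_pos ha, if_pos hb, max_eq_left ha, max_eq_left hb, one_mul, one_mul]
    exact kr_disc (mul_nonneg (by linarith [hsq a ha]) (by linarith [hsq b hb]))
  · rw [rf, rf, if_pos ha, if_neg hb, max_eq_left ha, max_eq_right (not_le.1 hb).le, one_mul,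
      map_inv₀, Complex.conj_conj, ← norm_mul]
    have h1 : b * (1 - a * b⁻¹) = b - a := by
      field_simp [hne b hb]
    rw [h1, norm_sub_rev]
  · rw [rf, rf, if_neg ha, if_pos hb, max_eq_right (not_le.1 ha).le, max_eq_left hb, mul_one]
    have h1 : ‖a‖ = ‖conj a‖ := (RCLike.norm_conj a).symm
    have h0 : conj a ≠ 0 := by
      rw [Ne, map_eq_zero]
      exact hne a ha
    have h2 : conj a * (1 - (conj a)⁻¹ * conj b) = conj (a - b) := by
      rw [map_sub]
      field_simp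
    rw [h1, ← norm_mul, h2, RCLike.norm_conj]
  · rw [rf, rf, if_neg ha, if_neg hb, max_eq_right (not_le.1 ha).le, max_eq_right (not_le.1 hb).le,
      map_inv₀, Complex.conj_conj]
    have h1 : ‖a‖ = ‖conj a‖ := (RCLike.norm_conj a).symm
    have h0 : conj a ≠ 0 := by
      rw [Ne, map_eq_zero]
      exact hne a ha
    have h2 : conj a * b * (1 - (conj a)⁻¹ * b⁻¹) = -(1 - conj a * b) := by
      have := hne b hb
      field_simp
      ring
    have h3 : ‖1 - conj a * b‖ = ‖1 - a * conj b‖ := by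
      rw [← RCLike.norm_conj (1 - a * conj b)]
      congr 1
      rw [map_sub, map_one, map_mul, Complex.conj_conj]
    rw [h1, ← norm_mul, ← norm_mul, h2, norm_neg, h3]
    refine kr_disc ?_
    have e1 := hsq' a ha
    have e2 := hsq' b hb
    nlinarith

theorem norm_one_sub_le (w : ℂ) (hw : ‖w‖ ≤ 1) (r : ℝ) (h0 : 0 ≤ r) (h1 : r ≤ 1) :
    (1 + r) / 2 * ‖1 - w‖ ≤ ‖1 - r * w‖ := by
  have hs : 0 ≤ (1 + r) / 2 * ‖1 - w‖ := by positivity
  rw [← Real.sqrt_sq hs, ← Real.sqrt_sq (norm_nonneg (1 - (r : ℂ) * w))]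
  apply Real.sqrt_le_sqrt
  rw [mul_pow, ← Complex.normSq_eq_norm_sq, ← Complex.normSq_eq_norm_sq]
  have h2 : Complex.normSq w ≤ 1 := by
    rw [Complex.normSq_eq_norm_sq]
    have := norm_nonneg w
    nlinarith
  simp only [Complex.normSq_apply, Complex.sub_re, Complex.sub_im, Complex.mul_re, Complex.mul_im,
    Complex.ofReal_re, Complex.ofReal_im, Complex.one_re, Complex.one_im] at h2 ⊢
  have h3 : 0 ≤ (1 - r ^ 2) * (1 - (w.re * w.re + w.im * w.im)) :=
    mul_nonneg (by nlinarith) (by linarith)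
  have h4 : 0 ≤ (1 - r) ^ 2 * ((1 + w.re) ^ 2 + w.im ^ 2) := by positivity
  nlinarith

theorem rf_norm_le (a : ℂ) : ‖rf a‖ ≤ 1 := by
  unfold rf
  split_ifs with h
  · exact h
  · rw [norm_inv, RCLike.norm_conj]
    exact inv_le_one_of_one_le₀ (not_le.1 h).le

theorem kr_le {a b : ℂ} (hab : a ≠ b) {r s : ℝ} (hr0 : 0 ≤ r) (hr1 : r ≤ 1) (hs0 : 0 ≤ s)
    (hs1 : s ≤ 1) :
    kr (r * rf a) (s * rf b) ≤
      - Real.log ‖a - b‖ + Real.posLog ‖a‖ + Real.posLog ‖b‖ + (1 - r) + (1 - s) := by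
  have hab' : 0 < ‖a - b‖ := norm_pos_iff.2 (sub_ne_zero.2 hab)
  have hM : 0 < max 1 ‖a‖ * max 1 ‖b‖ :=
    mul_pos (lt_of_lt_of_le one_pos (le_max_left _ _)) (lt_of_lt_of_le one_pos (le_max_left _ _))
  set w : ℂ := rf a * conj (rf b) with hw
  have hw1 : ‖w‖ ≤ 1 := by
    rw [hw, norm_mul, RCLike.norm_conj]
    exact mul_le_one₀ (rf_norm_le a) (norm_nonneg _) (rf_norm_le b)
  have h1 := norm_sub_le a b
  rw [← hw] at h1
  have hw0 : 0 < ‖1 - w‖ := by
    by_contra hcon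
    rw [not_lt] at hcon
    have h2 : ‖1 - w‖ = 0 := le_antisymm hcon (norm_nonneg _)
    rw [h2, mul_zero] at h1
    linarith
  have hrs0 : 0 ≤ r * s := mul_nonneg hr0 hs0
  have hrs1 : r * s ≤ 1 := mul_le_one₀ hr1 hs0 hs1
  have h2 := norm_one_sub_le w hw1 (r * s) hrs0 hrs1
  have h3 : (1 : ℂ) - (r * rf a) * conj (s * rf b) = 1 - ((r * s : ℝ) : ℂ) * w := by
    rw [map_mul, Complex.conj_ofReal, hw]
    push_cast
    ring
  have h4 : Real.log ‖a - b‖ ≤ Real.posLog ‖a‖ + Real.posLog ‖b‖ + Real.log ‖1 - w‖ := by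
    have h5 := Real.log_le_log hab' h1
    rw [Real.log_mul hM.ne' hw0.ne', Real.log_mul (lt_of_lt_of_le one_pos (le_max_left _ _)).ne'
      (lt_of_lt_of_le one_pos (le_max_left _ _)).ne',
      ← Real.posLog_eq_log_max_one (norm_nonneg a), ← Real.posLog_eq_log_max_one (norm_nonneg b)]
      at h5
    exact h5
  have h5 : 0 < (1 + r * s) / 2 := by linarith
  have h6 : Real.log ((1 + r * s) / 2) + Real.log ‖1 - w‖ ≤
      Real.log ‖1 - ((r * s : ℝ) : ℂ) * w‖ := by
    rw [← Real.log_mul h5.ne' hw0.ne']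
    exact Real.log_le_log (mul_pos h5 hw0) h2
  have h7 : -Real.log ((1 + r * s) / 2) ≤ 1 - r * s := by
    have h8 := Real.log_le_sub_one_of_pos (inv_pos.2 h5)
    rw [Real.log_inv] at h8
    have h9 : ((1 + r * s) / 2)⁻¹ - 1 ≤ 1 - r * s := by
      rw [sub_le_iff_le_add, inv_le_iff_one_le_mul₀ h5]
      nlinarith
    linarith
  unfold kr
  rw [h3]
  nlinarith [mul_nonneg hr0 (sub_nonneg.2 hs1), mul_nonneg (sub_nonneg.2 hr1) (sub_nonneg.2 hs1)]

theorem rf_pow (a : ℂ) (n : ℕ) : rf (a ^ n) = rf a ^ n := by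
  rcases Nat.eq_zero_or_pos n with rfl | hn
  · rw [pow_zero, pow_zero, rf, if_pos (by rw [norm_one])]
  · by_cases h : ‖a‖ ≤ 1
    · rw [rf, rf, if_pos h, if_pos (by rw [norm_pow]; exact pow_le_one₀ (norm_nonneg _) h)]
    · have h1 : ¬ ‖a ^ n‖ ≤ 1 := by
        rw [norm_pow, not_le]
        exact one_lt_pow₀ (not_le.1 h) hn.ne'
      rw [rf, rf, if_neg h, if_neg h1, map_pow, inv_pow]

theorem rf_mul_root (a ω : ℂ) (h : ‖ω‖ = 1) : rf (ω * a) = ω * rf a := by
  have h1 : ‖ω * a‖ = ‖a‖ := by rw [norm_mul, h, one_mul]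
  have h2 : (conj ω)⁻¹ = ω := by
    have h0 : conj ω ≠ 0 := by
      intro h3
      rw [map_eq_zero] at h3
      rw [h3, norm_zero] at h
      exact zero_ne_one h
    have h4 : ω * conj ω = 1 := by
      rw [Complex.mul_conj, Complex.normSq_eq_norm_sq, h]
      norm_num
    exact inv_eq_of_mul_eq_one_left h4
  unfold rf
  rw [h1]
  split_ifs with h3
  · rfl
  · rw [map_mul, mul_inv, h2]

theorem prod_one_sub {p : ℕ} (hp : 0 < p) (w : ℂ) :
    ∏ k ∈ Finset.range p, (1 - Complex.exp (2 * Real.pi * Complex.I * k / p) * w) = 1 - w ^ p := by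
  have hζ := Complex.isPrimitiveRoot_exp p hp.ne'
  have h1 := hζ.pow_sub_pow_eq_prod_sub_mul 1 w hp
  rw [one_pow] at h1
  rw [h1]
  have h2 : Polynomial.nthRootsFinset p (1 : ℂ) = (Finset.range p).image
      fun k => Complex.exp (2 * Real.pi * Complex.I / p) ^ k := by
    symm
    apply Finset.eq_of_subset_of_card_le
    · intro x hx
      obtain ⟨k, -, rfl⟩ := Finset.mem_image.1 hx
      rw [Polynomial.mem_nthRootsFinset hp, ← pow_mul, Nat.mul_comm k p, pow_mul, hζ.pow_eq_one,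
        one_pow]
    · rw [hζ.card_nthRootsFinset, Finset.card_image_of_injOn, Finset.card_range]
      intro i hi j hj hij
      exact hζ.pow_inj (Finset.mem_range.1 hi) (Finset.mem_range.1 hj) hij
  rw [h2, Finset.prod_image]
  · refine Finset.prod_congr rfl fun k _ => ?_
    rw [← Complex.exp_nat_mul]
    congr 3
    ring
  · intro i hi j hj hij
    exact hζ.pow_inj (Finset.mem_range.1 hi) (Finset.mem_range.1 hj) hij

/-- the roots of unity of order dividing `p` -/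
theorem kr_pow {p : ℕ} (hp : 0 < p) {a b : ℂ} (ha : ‖a‖ < 1) (hb : ‖b‖ < 1) :
    kr (a ^ p) (b ^ p) = ∑ k ∈ Finset.range p,
      kr (Complex.exp (2 * Real.pi * Complex.I * k / p) * a) b := by
  have hab : ‖a * conj b‖ < 1 := by
    rw [norm_mul, RCLike.norm_conj]
    have h3 := norm_nonneg a
    have h4 := norm_nonneg b
    nlinarith
  have h1 : ∀ k ∈ Finset.range p,
      ‖1 - Complex.exp (2 * Real.pi * Complex.I * k / p) * (a * conj b)‖ ≠ 0 := by
    intro k _
    rw [norm_ne_zero_iff]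
    apply kr_one_sub_ne
    rw [norm_mul]
    have h2 : ‖Complex.exp (2 * Real.pi * Complex.I * k / p)‖ = 1 := by
      have h3 : (2 * Real.pi * Complex.I * k / p : ℂ) = ((2 * Real.pi * k / p : ℝ) : ℂ) *
          Complex.I := by
        push_cast
        ring
      rw [h3, Complex.norm_exp_ofReal_mul_I]
    rw [h2, one_mul]
    exact hab
  unfold kr
  rw [map_pow, ← mul_pow, ← prod_one_sub hp, norm_prod, Real.log_prod h1, Finset.sum_neg_distrib]
  congr 1
  refine Finset.sum_congr rfl fun k _ => ?_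
  rw [← mul_assoc (Complex.exp _)]

end H82.LB
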