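import Pool.Agent.H82.LB.Defs

/-!
# LB: the harmonic function `L - log |∏ (1 - w \bar z_j)|`: positivity, Harnack, mean value
-/

set_option autoImplicit false

namespace H82.LB

open ComplexConjugate Complex Metric Set

/-- the function `L - ∑ log |1 - w \bar z_j|` -/
noncomputable def vv {ι : Type*} [Fintype ι] (z : ι → ℂ) (L : ℝ) (w : ℂ) : ℝ :=
  L - ∑ j, Real.log ‖1 - w * conj (z j)‖

variable {ι : Type*} [Fintype ι] {z : ι → ℂ} {L : ℝ}

omit [Fintype ι] in
theorem Har_norm (hz : ∀ i, ‖z i‖ ≤ 1) {w : ℂ} (hw : ‖w‖ < 1) (j : ι) :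
    ‖w * conj (z j)‖ < 1 := by
  rw [norm_mul, RCLike.norm_conj]
  have h1 := hz j
  have h2 := norm_nonneg w
  have h3 := norm_nonneg (z j)
  nlinarith

omit [Fintype ι] in
theorem Har_slit (hz : ∀ i, ‖z i‖ ≤ 1) {w : ℂ} (hw : ‖w‖ < 1) (j : ι) :
    1 - w * conj (z j) ∈ slitPlane := by
  left
  have h1 := Har_norm hz hw j
  have h2 := Complex.re_le_norm (w * conj (z j))
  rw [Complex.sub_re, Complex.one_re]
  linarith

omit [Fintype ι] in
theorem Har_ne (hz : ∀ i, ‖z i‖ ≤ 1) {w : ℂ} (hw : ‖w‖ < 1) (j : ι) :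
    1 - w * conj (z j) ≠ 0 := slitPlane_ne_zero (Har_slit hz hw j)

/-- the product `∏ (1 - w \bar z_j)` -/
theorem Har_log_prod (hz : ∀ i, ‖z i‖ ≤ 1) {w : ℂ} (hw : ‖w‖ < 1) :
    Real.log ‖∏ j, (1 - w * conj (z j))‖ = ∑ j, Real.log ‖1 - w * conj (z j)‖ := by
  rw [norm_prod, Real.log_prod fun j _ => norm_ne_zero_iff.2 (Har_ne hz hw j)]

/-- **(H1)** positivity -/
theorem vv_nonneg (hz : ∀ i, ‖z i‖ ≤ 1)
    (hF : ∀ w : ℂ, ‖w‖ = 1 → ∏ i, ‖1 - w * starRingEnd ℂ (z i)‖ ≤ Real.exp L) {w : ℂ}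
    (hw : ‖w‖ < 1) : 0 ≤ vv z L w := by
  have hd : Differentiable ℂ fun w : ℂ => ∏ j, (1 - w * conj (z j)) := by
    have : ∀ j : ι, Differentiable ℂ fun w : ℂ => 1 - w * conj (z j) := fun j => by fun_prop
    exact Differentiable.fun_finsetProd fun j _ => this j
  have h1 := Complex.norm_le_of_forall_mem_frontier_norm_le (U := ball (0 : ℂ) 1) isBounded_ball
    hd.diffContOnCl (C := Real.exp L) (fun u hu => by
      rw [frontier_ball (0 : ℂ) one_ne_zero, mem_sphere_zero_iff_norm] at hu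
      rw [norm_prod]
      exact hF u hu) (subset_closure (mem_ball_zero_iff.2 hw))
  have h2 : (∏ j, (1 - w * conj (z j))) ≠ 0 := Finset.prod_ne_zero_iff.2 fun j _ => Har_ne hz hw j
  have h3 := Real.log_le_log (norm_pos_iff.2 h2) h1
  rw [Real.log_exp, Har_log_prod hz hw] at h3
  unfold vv
  linarith

/-- the analytic function with real part `vv` -/
theorem Har_re (z : ι → ℂ) (L : ℝ) (w : ℂ) :
    ((L : ℂ) - ∑ j, Complex.log (1 - w * conj (z j))).re = vv z L w := by
  rw [Complex.sub_re, Complex.ofReal_re, Complex.re_sum, vv]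
  simp only [Complex.log_re]

theorem Har_diff (hz : ∀ i, ‖z i‖ ≤ 1) {w : ℂ} (hw : ‖w‖ < 1) :
    DifferentiableAt ℂ (fun w : ℂ => (L : ℂ) - ∑ j, Complex.log (1 - w * conj (z j))) w := by
  refine (differentiableAt_const _).sub (DifferentiableAt.fun_sum fun j _ => ?_)
  exact DifferentiableAt.clog (by fun_prop) (Har_slit hz hw j)

/-- **(H2)** the Harnack inequality, symmetric form -/
theorem vv_harnack_abs (hz : ∀ i, ‖z i‖ ≤ 1)
    (hF : ∀ w : ℂ, ‖w‖ = 1 → ∏ i, ‖1 - w * starRingEnd ℂ (z i)‖ ≤ Real.exp L)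
    {a p : ℂ} {R q : ℝ} (hR : 0 < R) (haR : ‖a‖ + R ≤ 1) (hq1 : q < 1)
    (hp : ‖p - a‖ ≤ q * R) : |vv z L p - vv z L a| ≤ q * (vv z L p + vv z L a) := by
  set h : ℂ → ℂ := fun w => (L : ℂ) - ∑ j, Complex.log (1 - w * conj (z j)) with hh
  have hre : ∀ w, (h w).re = vv z L w := fun w => Har_re z L w
  have hin : ∀ w ∈ ball a R, ‖w‖ < 1 := by
    intro w hw
    rw [mem_ball, dist_eq_norm] at hw
    have h1 : ‖w‖ ≤ ‖w - a‖ + ‖a‖ := by
      have := norm_add_le (w - a) a
      rwa [sub_add_cancel] at this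
    linarith
  have hq0 : 0 ≤ q := by
    by_contra hcon
    rw [not_le] at hcon
    have h1 := norm_nonneg (p - a)
    nlinarith
  have hpb : p ∈ ball a R := by
    rw [mem_ball, dist_eq_norm]
    nlinarith
  have hab : a ∈ ball a R := mem_ball_self hR
  have key : ∀ ε > 0, |vv z L p - vv z L a| ≤ q * (vv z L p + vv z L a + 2 * ε) := by
    intro ε hε
    have hpos : ∀ w ∈ ball a R, 0 < (h w).re + ε := fun w hw => by
      rw [hre]
      have := vv_nonneg hz hF (hin w hw)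
      linarith
    -- the denominator
    set A : ℂ := conj (h a) + 2 * ε with hA
    have hAre : A.re = (h a).re + 2 * ε := by
      rw [hA]
      simp
    have hden : ∀ w ∈ ball a R, 0 < (h w + A).re := fun w hw => by
      rw [Complex.add_re, hAre]
      have h1 := hpos w hw
      have h2 := hpos a hab
      linarith
    have hden0 : ∀ w ∈ ball a R, h w + A ≠ 0 := fun w hw h0 => by
      have h1 := hden w hw
      rw [h0, Complex.zero_re] at h1
      exact lt_irrefl _ h1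
    have hle : ∀ w ∈ ball a R, ‖h w - h a‖ ≤ ‖h w + A‖ := by
      intro w hw
      rw [← Real.sqrt_sq (norm_nonneg (h w - h a)), ← Real.sqrt_sq (norm_nonneg (h w + A))]
      apply Real.sqrt_le_sqrt
      rw [← Complex.normSq_eq_norm_sq, ← Complex.normSq_eq_norm_sq, Complex.normSq_apply,
        Complex.normSq_apply]
      have hAim : A.im = -(h a).im := by
        rw [hA]
        simp
      rw [Complex.add_re, Complex.add_im, hAre, hAim, Complex.sub_re, Complex.sub_im]
      have h1 := hpos w hw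
      have h2 := hpos a hab
      nlinarith [mul_pos h1 h2]
    have hdiff : DifferentiableOn ℂ (fun w => (h w - h a) / (h w + A)) (ball a R) := by
      intro w hw
      have h1 : DifferentiableAt ℂ h w := Har_diff hz (hin w hw)
      exact ((h1.sub_const _).div (h1.add_const _) (hden0 w hw)).differentiableWithinAt
    have hmaps : MapsTo (fun w => (h w - h a) / (h w + A)) (ball a R)
        (closedBall ((h a - h a) / (h a + A)) 1) := by
      intro w hw
      rw [sub_self, zero_div, mem_closedBall_zero_iff, norm_div]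
      exact div_le_one_of_le₀ (hle w hw) (norm_nonneg _)
    have hsch := Complex.dist_le_div_mul_dist_of_mapsTo_ball hdiff hmaps hpb
    rw [sub_self, zero_div, dist_zero_right, norm_div, dist_eq_norm, one_div,
      div_le_iff₀ (norm_pos_iff.2 (hden0 p hpb))] at hsch
    have h1 : ‖h p - h a‖ ≤ q * ‖h p + A‖ := by
      refine hsch.trans (mul_le_mul_of_nonneg_right ?_ (norm_nonneg _))
      rw [inv_mul_le_iff₀ hR]
      linarith
    have h2 : ‖h p - h a‖ ^ 2 ≤ q ^ 2 * ‖h p + A‖ ^ 2 := by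
      rw [← mul_pow]
      exact pow_le_pow_left₀ (norm_nonneg _) h1 2
    have hAim : A.im = -(h a).im := by
      rw [hA]
      simp
    rw [← Complex.normSq_eq_norm_sq, ← Complex.normSq_eq_norm_sq, Complex.normSq_apply,
      Complex.normSq_apply, Complex.add_re, Complex.add_im, hAre, hAim, Complex.sub_re,
      Complex.sub_im, hre, hre] at h2
    have hs : 0 ≤ vv z L p + vv z L a + 2 * ε := by
      have h3 := vv_nonneg hz hF (hin p hpb)
      have h4 := vv_nonneg hz hF (hin a hab)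
      linarith
    apply abs_le_of_sq_le_sq _ (mul_nonneg hq0 hs)
    have h5 : 0 ≤ (1 - q ^ 2) * ((h p).im - (h a).im) ^ 2 :=
      mul_nonneg (by nlinarith) (sq_nonneg _)
    nlinarith
  by_contra hcon
  rw [not_le] at hcon
  have h1 := key ((|vv z L p - vv z L a| - q * (vv z L p + vv z L a)) / 4)
    (by linarith)
  nlinarith

/-- **(H2)** the Harnack inequality, upper bound -/
theorem vv_harnack_le (hz : ∀ i, ‖z i‖ ≤ 1)
    (hF : ∀ w : ℂ, ‖w‖ = 1 → ∏ i, ‖1 - w * starRingEnd ℂ (z i)‖ ≤ Real.exp L)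
    {a p : ℂ} {R q : ℝ} (hR : 0 < R) (haR : ‖a‖ + R ≤ 1) (hq1 : q < 1)
    (hp : ‖p - a‖ ≤ q * R) : vv z L p ≤ (1 + q) / (1 - q) * vv z L a := by
  have h := (abs_le.1 (vv_harnack_abs hz hF hR haR hq1 hp)).2
  have h1 : 0 < 1 - q := by linarith
  rw [div_mul_eq_mul_div, le_div_iff₀ h1]
  linarith

/-- **(H2)** the Harnack inequality, lower bound -/
theorem vv_harnack_ge (hz : ∀ i, ‖z i‖ ≤ 1)
    (hF : ∀ w : ℂ, ‖w‖ = 1 → ∏ i, ‖1 - w * starRingEnd ℂ (z i)‖ ≤ Real.exp L)
    {a p : ℂ} {R q : ℝ} (hR : 0 < R) (haR : ‖a‖ + R ≤ 1) (hq0 : 0 ≤ q) (hq1 : q < 1)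
    (hp : ‖p - a‖ ≤ q * R) : (1 - q) / (1 + q) * vv z L a ≤ vv z L p := by
  have h := (abs_le.1 (vv_harnack_abs hz hF hR haR hq1 hp)).1
  have h1 : 0 < 1 + q := by linarith
  rw [div_mul_eq_mul_div, div_le_iff₀ h1]
  linarith

/-- the value at the centre -/
theorem vv_zero (z : ι → ℂ) (L : ℝ) : vv z L 0 = L := by
  simp [vv]

/-- **(H3)** continuity on circles -/
theorem vv_circle_cont (hz : ∀ i, ‖z i‖ ≤ 1) {ρ : ℝ} (h0 : 0 ≤ ρ) (h1 : ρ < 1) :
    Continuous fun θ : ℝ => vv z L (ρ * Complex.exp (θ * Complex.I)) := by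
  have hn : ∀ θ : ℝ, ‖(ρ : ℂ) * Complex.exp (θ * Complex.I)‖ < 1 := by
    intro θ
    rw [norm_mul, Complex.norm_exp_ofReal_mul_I, mul_one, Complex.norm_real, Real.norm_eq_abs,
      abs_of_nonneg h0]
    exact h1
  unfold vv
  refine continuous_const.sub (continuous_finsetSum _ fun j _ => ?_)
  refine Continuous.log (by fun_prop) fun θ => norm_ne_zero_iff.2 (Har_ne hz (hn θ) j)

/-- **(H3)** the mean value -/
theorem vv_circle_mean (hz : ∀ i, ‖z i‖ ≤ 1) {ρ : ℝ} (h0 : 0 ≤ ρ) (h1 : ρ < 1) :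
    ∫ θ in (0 : ℝ)..2 * Real.pi, vv z L (ρ * Complex.exp (θ * Complex.I)) = 2 * Real.pi * L := by
  have hH : InnerProductSpace.HarmonicOnNhd (vv z L) (closedBall (0 : ℂ) |ρ|) := by
    intro w hw
    rw [mem_closedBall_zero_iff, abs_of_nonneg h0] at hw
    have hw1 : ‖w‖ < 1 := lt_of_le_of_lt hw h1
    have ha : AnalyticAt ℂ (fun w : ℂ => ∏ j, (1 - w * conj (z j))) w := by
      refine Finset.analyticAt_fun_prod _ fun j _ => ?_
      fun_prop
    have h2 : (∏ j, (1 - w * conj (z j))) ≠ 0 :=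
      Finset.prod_ne_zero_iff.2 fun j _ => Har_ne hz hw1 j
    have h3 := ha.harmonicAt_log_norm h2
    have h4 : InnerProductSpace.HarmonicAt
        (fun w : ℂ => L - Real.log ‖∏ j, (1 - w * conj (z j))‖) w :=
      (InnerProductSpace.harmonicAt_const L).sub h3
    refine (InnerProductSpace.harmonicAt_congr_nhds ?_).1 h4
    filter_upwards [isOpen_ball.mem_nhds (mem_ball_zero_iff.2 hw1)] with u hu
    rw [Har_log_prod hz (mem_ball_zero_iff.1 hu), vv]
  have h2 := hH.circleAverage_eq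
  rw [vv_zero, Real.circleAverage_def, smul_eq_mul] at h2
  have h3 : ∀ θ : ℝ, circleMap 0 ρ θ = ρ * Complex.exp (θ * Complex.I) := by
    intro θ
    rw [circleMap, zero_add]
  simp only [h3] at h2
  have hpi : (0 : ℝ) < 2 * Real.pi := by positivity
  rw [inv_mul_eq_iff_eq_mul₀ hpi.ne'] at h2
  exact h2

end H82.LB
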