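import Pool.Agent.H82.LB.D6

/-!
# V_point: pointwise bound of the harmonic function on the radii
-/

set_option autoImplicit false

namespace H15.LB

open H82.LB

section

variable {ι : Type*} [Fintype ι] {z : ι → ℂ} {L : ℝ} (hz : ∀ i, ‖z i‖ ≤ 1)
    (hF : ∀ w : ℂ, ‖w‖ = 1 → ∏ i, ‖1 - w * starRingEnd ℂ (z i)‖ ≤ Real.exp L)

include hz hF

theorem V_two {a : ℂ} (ha : ‖a‖ ≤ 1) {s δ B : ℝ} (h0 : 0 < s) (h1 : s ≤ δ) (h2 : δ ≤ 1)
    (h3 : δ ≤ 2 * s) (hB : V z L ((1 - δ : ℝ) * a) ≤ B) :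
    V z L ((1 - s : ℝ) * a) ≤ 4 * B := by
  have h := V_radial hz hF ha h0 h1 h2
  have hd : 0 < δ := h0.trans_le h1
  have n2 : ‖((1 - δ : ℝ) : ℂ) * a‖ < 1 := by
    rw [norm_mul, Complex.norm_real, Real.norm_of_nonneg (by linarith)]
    nlinarith [norm_nonneg a]
  have hV := V_nonneg z L hz hF _ n2
  have h4 : δ / s ≤ 2 := by
    rw [div_le_iff₀ h0]
    exact h3
  have h5 : 0 ≤ δ / s := by positivity
  have h6 : (δ / s) ^ 2 ≤ 4 := by nlinarith
  calc V z L ((1 - s : ℝ) * a) ≤ (δ / s) ^ 2 * V z L ((1 - δ : ℝ) * a) := h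
    _ ≤ 4 * V z L ((1 - δ : ℝ) * a) := mul_le_mul_of_nonneg_right h6 hV
    _ ≤ 4 * B := by linarith

/-- above half the scale -/
theorem V_gen (hL : 0 ≤ L) {a : ℂ} (ha : ‖a‖ ≤ 1) {s : ℝ} (h0 : dl z L a / 2 < s)
    (h1 : s ≤ 1 / 2) :
    V z L ((1 - s : ℝ) * a) ≤ 768 * s * Fintype.card ι + 12 * L := by
  have hd := dl_pos z L a
  have hs : 0 < s := by linarith
  have hc : (0 : ℝ) ≤ Fintype.card ι := Nat.cast_nonneg _
  obtain ⟨n, hn1, hn2⟩ := exists_nat_pow_near_of_lt_one (x := s) (y := (1 / 2 : ℝ)) hs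
    (by linarith) (by norm_num) (by norm_num)
  have hn0 : 1 ≤ n := by
    by_contra h0
    have : n = 0 := by omega
    rw [this] at hn1
    norm_num at hn1
    linarith
  rcases lt_or_ge n (kk z L a) with hk | hk
  · have h2 := T2 z L a n hn0 hk
    have h3 : (1 / 2 : ℝ) ^ n ≤ 2 * s := by
      rw [pow_succ] at hn1
      linarith
    have h4 := V_two hz hF ha hs hn2 (pow_le_one₀ (by norm_num) (by norm_num)) h3 h2
    have h5 : 12 * (1 / 2 : ℝ) ^ n * Fintype.card ι ≤ 12 * (2 * s) * Fintype.card ι := by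
      gcongr
    have h6 : 0 ≤ s * Fintype.card ι := by positivity
    linarith
  · have h2 : s ≤ dl z L a := by
      refine hn2.trans ?_
      unfold dl
      exact pow_le_pow_of_le_one (by norm_num : (0 : ℝ) ≤ 1 / 2) (by norm_num) hk
    have h3 := T3 hz hF hL ha
    have h4 := V_two hz hF ha hs h2 ((dl_le z L a).trans (by norm_num)) (by linarith) h3
    have h5 : dl z L a * Fintype.card ι ≤ (2 * s) * Fintype.card ι :=
      mul_le_mul_of_nonneg_right (by linarith) hc
    linarith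

/-- far points, below `1 - ‖a‖` -/
theorem V_far' (hL : 0 ≤ L) {a : ℂ} (ha : dl z L a < 1 - ‖a‖) {s : ℝ} (h0 : 0 < s)
    (h1 : s ≤ 1 - ‖a‖) :
    V z L ((1 - s : ℝ) * a) ≤ 216 * (1 - ‖a‖) * Fintype.card ι + 3 * L := by
  have hd := dl_pos z L a
  have hh : 0 < 1 - ‖a‖ := by linarith
  have hc : (0 : ℝ) ≤ Fintype.card ι := Nat.cast_nonneg _
  have na := norm_nonneg a
  have hs1 : s ≤ 1 := by linarith
  have n1 : ‖((1 - s : ℝ) : ℂ) * a‖ = (1 - s) * ‖a‖ := by
    rw [norm_mul, Complex.norm_real, Real.norm_of_nonneg (by linarith)]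
  have n1' : (1 - s) * ‖a‖ ≤ ‖a‖ := by nlinarith
  rcases le_or_gt (1 - ‖a‖) (1 / 2) with h | h
  · obtain ⟨n, hn1, hn2⟩ := exists_nat_pow_near_of_lt_one (x := 1 - ‖a‖) (y := (1 / 2 : ℝ)) hh
      (by linarith) (by norm_num) (by norm_num)
    have hn0 : 1 ≤ n := by
      by_contra h0
      have : n = 0 := by omega
      rw [this] at hn1
      norm_num at hn1
      linarith
    have hnk : n < kk z L a := by
      by_contra h0
      push Not at h0
      have := pow_le_pow_of_le_one (by norm_num : (0 : ℝ) ≤ 1 / 2) (by norm_num) h0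
      unfold dl at ha
      linarith
    have h2 := T2 z L a n hn0 hnk
    have h3 : (1 / 2 : ℝ) ^ n ≤ 2 * (1 - ‖a‖) := by
      rw [pow_succ] at hn1
      linarith
    have hp0 : 0 < (1 / 2 : ℝ) ^ n := by positivity
    have hp1 : (1 / 2 : ℝ) ^ n ≤ 1 := pow_le_one₀ (by norm_num) (by norm_num)
    have n2 : ‖((1 - (1 / 2 : ℝ) ^ n : ℝ) : ℂ) * a‖ = (1 - (1 / 2 : ℝ) ^ n) * ‖a‖ := by
      rw [norm_mul, Complex.norm_real, Real.norm_of_nonneg (by linarith)]
    have h4 := V_hn (L := L) hz hF (w₁ := ((1 - s : ℝ) : ℂ) * a)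
      (w₂ := ((1 - (1 / 2 : ℝ) ^ n : ℝ) : ℂ) * a)
      (by rw [n1]; linarith) (by rw [n2]; nlinarith)
      (by
        rw [n1, n2]
        exact mul_le_mul_of_nonneg_right (by linarith) na) 2 (by norm_num) (by
        have e : ((1 - s : ℝ) : ℂ) * a - ((1 - (1 / 2 : ℝ) ^ n : ℝ) : ℂ) * a =
            (((1 / 2 : ℝ) ^ n - s : ℝ) : ℂ) * a := by
          push_cast
          ring
        rw [e, norm_mul, Complex.norm_real, Real.norm_of_nonneg (by linarith), n1]
        have h5 : ((1 / 2 : ℝ) ^ n - s) * ‖a‖ ≤ ((1 / 2 : ℝ) ^ n - s) * 1 :=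
          mul_le_mul_of_nonneg_left (by linarith) (by linarith)
        linarith)
    have h5 : 12 * (1 / 2 : ℝ) ^ n * Fintype.card ι ≤ 12 * (2 * (1 - ‖a‖)) * Fintype.card ι := by
      gcongr
    norm_num at h4 h2
    have h6 : 0 ≤ L := hL
    norm_num at h5 ⊢
    linarith
  · have h3 := V_center hz hF (w := ((1 - s : ℝ) : ℂ) * a) (by rw [n1]; linarith) hL
    have h5 : 0 ≤ 216 * (1 - ‖a‖) * Fintype.card ι := by positivity
    linarith

/-- near points, below half the scale -/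
theorem V_near' (hL : 0 ≤ L) {a : ℂ} (ha : ‖a‖ ≤ 1) {s : ℝ} (h0 : 0 < s)
    (h1 : s ≤ dl z L a / 2) :
    V z L ((1 - s : ℝ) * a) ≤ 7124 * Fintype.card ι *
      (dl z L a * Real.log (2 + dl z L a / s)) + 3 * L := by
  have hd := dl_pos z L a
  have hc : (0 : ℝ) ≤ Fintype.card ι := Nat.cast_nonneg _
  have h2 := T_near hz hF hL ha (ε := s / dl z L a) (by positivity)
    (by rw [div_le_iff₀ hd]; linarith)
  have e1 : s / dl z L a * dl z L a = s := by field_simp
  have e2 : 1 / (s / dl z L a) = dl z L a / s := by field_simp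
  rw [e1, e2] at h2
  have h3 : 0 < dl z L a / s := by positivity
  have h4 : Real.log (1 + dl z L a / s) ≤ Real.log (2 + dl z L a / s) :=
    Real.log_le_log (by linarith) (by linarith)
  have h5 : 1 / 2 ≤ Real.log (2 + dl z L a / s) := by
    have h6 : Real.log 2 ≤ Real.log (2 + dl z L a / s) :=
      Real.log_le_log (by norm_num) (by linarith)
    have := Real.log_two_gt_d9
    linarith
  have h6 : 96 + 6924 * Real.log (1 + dl z L a / s) ≤ 7124 * Real.log (2 + dl z L a / s) := by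
    linarith
  have h7 : dl z L a * Fintype.card ι * (96 + 6924 * Real.log (1 + dl z L a / s)) ≤
      dl z L a * Fintype.card ι * (7124 * Real.log (2 + dl z L a / s)) :=
    mul_le_mul_of_nonneg_left h6 (by positivity)
  have e3 : dl z L a * Fintype.card ι * (7124 * Real.log (2 + dl z L a / s)) =
      7124 * Fintype.card ι * (dl z L a * Real.log (2 + dl z L a / s)) := by ring
  linarith

end

open Classical in
/-- pointwise bound of `V` on the radii through the points -/
theorem V_point : ∃ C : ℝ, 1 ≤ C ∧ ∀ {ι : Type} [Fintype ι] [Nonempty ι] (z : ι → ℂ) (L : ℝ),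
    (∀ i, ‖z i‖ ≤ 1) → 0 ≤ L →
    (∀ w : ℂ, ‖w‖ = 1 → ∏ i, ‖1 - w * starRingEnd ℂ (z i)‖ ≤ Real.exp L) →
    ∃ δ : ι → ℝ, (∀ i, 0 < δ i) ∧ (∀ i, δ i ≤ 1 / 2) ∧ ∑ i, δ i ≤ C * (1 + L) ∧
      ∀ i, ∀ s : ℝ, 0 < s → s ≤ 1 / 2 → V z L ((1 - s : ℝ) * z i) ≤
        C * Fintype.card ι * (s + (1 - ‖z i‖) + δ i * Real.log (2 + δ i / s)) + C * (1 + L) := by
  refine ⟨1500001, by norm_num, ?_⟩
  intro ι _ _ z L hz hL hF
  have hcard : (1 : ℝ) ≤ Fintype.card ι := by
    exact_mod_cast (Nat.succ_le_of_lt Fintype.card_pos)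
  have hcard0 : (0 : ℝ) < Fintype.card ι := by linarith
  refine ⟨fun i => if 1 - ‖z i‖ ≤ dl z L (z i) then dl z L (z i) else 1 / (2 * Fintype.card ι),
    ?_, ?_, ?_, ?_⟩
  · intro i
    dsimp only
    split_ifs
    · exact dl_pos z L (z i)
    · positivity
  · intro i
    dsimp only
    split_ifs
    · exact dl_le z L (z i)
    · rw [div_le_div_iff₀ (by positivity) (by norm_num)]
      linarith
  · have h1 := near_sum hz hF hL
    rw [← Finset.sum_filter_add_sum_filter_not Finset.univ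
      (fun i => 1 - ‖z i‖ ≤ dl z L (z i))]
    have h2 : ∑ i ∈ Finset.univ.filter (fun i => 1 - ‖z i‖ ≤ dl z L (z i)),
        (if 1 - ‖z i‖ ≤ dl z L (z i) then dl z L (z i) else 1 / (2 * Fintype.card ι : ℝ)) =
        ∑ i ∈ Finset.univ.filter (fun i => 1 - ‖z i‖ ≤ dl z L (z i)), dl z L (z i) := by
      refine Finset.sum_congr rfl fun i hi => ?_
      rw [if_pos (Finset.mem_filter.1 hi).2]
    have h3 : ∑ i ∈ Finset.univ.filter (fun i => ¬ (1 - ‖z i‖ ≤ dl z L (z i))),
        (if 1 - ‖z i‖ ≤ dl z L (z i) then dl z L (z i) else 1 / (2 * Fintype.card ι : ℝ)) ≤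
        1 / 2 := by
      calc _ = ∑ i ∈ Finset.univ.filter (fun i => ¬ (1 - ‖z i‖ ≤ dl z L (z i))),
            1 / (2 * Fintype.card ι : ℝ) := by
            refine Finset.sum_congr rfl fun i hi => ?_
            rw [if_neg (Finset.mem_filter.1 hi).2]
        _ ≤ ∑ _i : ι, 1 / (2 * Fintype.card ι : ℝ) :=
            Finset.sum_le_sum_of_subset_of_nonneg (Finset.subset_univ _)
              fun i _ _ => by positivity
        _ = 1 / 2 := by
            rw [Finset.sum_const, Finset.card_univ, nsmul_eq_mul]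
            field_simp
    rw [h2]
    linarith
  · intro i s hs0 hs1
    dsimp only
    have hzi := hz i
    have hd := dl_pos z L (z i)
    have hns : 0 ≤ 1 - ‖z i‖ := by linarith
    by_cases hn : 1 - ‖z i‖ ≤ dl z L (z i)
    · rw [if_pos hn]
      have hlog : 0 ≤ Real.log (2 + dl z L (z i) / s) := by
        apply Real.log_nonneg
        have : 0 ≤ dl z L (z i) / s := by positivity
        linarith
      have p1 : 0 ≤ Fintype.card ι * s := by positivity
      have p2 : 0 ≤ Fintype.card ι * (1 - ‖z i‖) := by positivity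
      have p3 : 0 ≤ Fintype.card ι * (dl z L (z i) * Real.log (2 + dl z L (z i) / s)) := by
        positivity
      rcases le_or_gt s (dl z L (z i) / 2) with h | h
      · have h1 := V_near' hz hF hL (hz i) hs0 h
        nlinarith
      · have h1 := V_gen hz hF hL (hz i) h hs1
        nlinarith
    · rw [if_neg hn]
      push Not at hn
      have hq : 0 < 1 / (2 * (Fintype.card ι : ℝ)) := by positivity
      have hlog : 0 ≤ Real.log (2 + 1 / (2 * (Fintype.card ι : ℝ)) / s) := by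
        apply Real.log_nonneg
        have : 0 ≤ 1 / (2 * (Fintype.card ι : ℝ)) / s := by positivity
        linarith
      have p1 : 0 ≤ Fintype.card ι * s := by positivity
      have p2 : 0 ≤ Fintype.card ι * (1 - ‖z i‖) := by positivity
      have p3 : 0 ≤ Fintype.card ι * (1 / (2 * (Fintype.card ι : ℝ)) *
          Real.log (2 + 1 / (2 * (Fintype.card ι : ℝ)) / s)) := by
        positivity
      rcases le_or_gt s (1 - ‖z i‖) with h | h
      · have h1 := V_far' hz hF hL hn hs0 h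
        nlinarith
      · have h1 := V_gen hz hF hL (hz i) (by linarith) hs1
        nlinarith

end H15.LB
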