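import Pool.Agent.H73.LB.Zone

/-!
# Zones, second form (Lambda version of LB, MP_dc0c68_nt; statement of helper82)
-/

set_option autoImplicit false

namespace H15.LB

open MeasureTheory Set Real Metric H73.LB

/-- the arc of chord radius `r` about `e` -/
def arc (e : ℂ) (r : ℝ) : Set ℝ :=
  {θ : ℝ | ‖Complex.exp (θ * Complex.I) - e‖ ≤ r} ∩ Ioc 0 (2 * π)

theorem measurableSet_arc (e : ℂ) (r : ℝ) : MeasurableSet (arc e r) := by
  refine MeasurableSet.inter ?_ measurableSet_Ioc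
  exact measurableSet_le (by fun_prop) measurable_const

theorem arc_sub (e : ℂ) (r : ℝ) : arc e r ⊆ Ioc 0 (2 * π) := inter_subset_right

theorem exists_angle {e : ℂ} (he : ‖e‖ = 1) :
    ∃ φ : ℝ, 0 < φ ∧ φ ≤ 2 * π ∧ Complex.exp (φ * Complex.I) = e := by
  have hpi := Real.pi_gt_three
  have harg : Complex.exp (e.arg * Complex.I) = e := by
    have := Complex.norm_mul_exp_arg_mul_I e
    rwa [he, Complex.ofReal_one, one_mul] at this
  have h2 := Complex.neg_pi_lt_arg e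
  have h3 := Complex.arg_le_pi e
  rcases le_or_gt e.arg 0 with h | h
  · refine ⟨e.arg + 2 * π, by linarith, by linarith, ?_⟩
    have : ((e.arg + 2 * π : ℝ) : ℂ) * Complex.I = e.arg * Complex.I + 2 * π * Complex.I := by
      push_cast; ring
    rw [this, Complex.exp_add, Complex.exp_two_pi_mul_I, mul_one, harg]
  · exact ⟨e.arg, h, by linarith, harg⟩

theorem norm_exp_sub_exp (s t : ℝ) :
    ‖Complex.exp (s * Complex.I) - Complex.exp (t * Complex.I)‖ = |2 * Real.sin ((s - t) / 2)| := by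
  have h1 : Complex.exp (s * Complex.I) - Complex.exp (t * Complex.I) =
      Complex.exp (t * Complex.I) * (Complex.exp (Complex.I * ((s - t : ℝ) : ℂ)) - 1) := by
    rw [mul_sub, ← Complex.exp_add, mul_one]
    congr 2
    push_cast
    ring
  rw [h1, norm_mul, Complex.norm_exp_ofReal_mul_I, one_mul, Complex.norm_exp_I_mul_ofReal_sub_one,
    Real.norm_eq_abs]

/-- an arc of chord radius `r` has length at most `2 π r` -/
theorem arc_volume_le {e : ℂ} (he : ‖e‖ = 1) {r : ℝ} (hr : 0 ≤ r) :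
    volume (arc e r) ≤ ENNReal.ofReal (2 * π * r) := by
  have hpi := Real.pi_pos
  obtain ⟨φ, hφ0, hφ1, hφ⟩ := exists_angle he
  have hsub : arc e r ⊆ (Icc (φ - π * r / 2) (φ + π * r / 2) ∪
      Icc (φ + 2 * π - π * r / 2) (2 * π)) ∪ Icc 0 (φ - 2 * π + π * r / 2) := by
    rintro θ ⟨h1, h2, h3⟩
    have h1' : ‖Complex.exp (θ * Complex.I) - e‖ ≤ r := h1
    rw [← hφ, norm_exp_sub_exp] at h1'
    -- y = |θ - φ| / 2
    have hy0 : 0 ≤ |θ - φ| / 2 := by positivity
    have hy1 : |θ - φ| / 2 < π := by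
      have : |θ - φ| < 2 * π := by rw [abs_lt]; constructor <;> linarith
      linarith
    have hsin : |2 * Real.sin ((θ - φ) / 2)| = 2 * Real.sin (|θ - φ| / 2) := by
      have hnn : 0 ≤ Real.sin (|θ - φ| / 2) :=
        Real.sin_nonneg_of_nonneg_of_le_pi hy0 hy1.le
      rcases le_or_gt 0 (θ - φ) with h | h
      · rw [abs_of_nonneg h] at hnn ⊢
        rw [abs_of_nonneg (by positivity)]
      · rw [abs_of_neg h] at hnn ⊢
        have : (θ - φ) / 2 = -(-(θ - φ) / 2) := by ring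
        rw [this, Real.sin_neg, mul_neg, abs_neg, abs_of_nonneg (by positivity)]
    rw [hsin] at h1'
    rcases le_or_gt (|θ - φ| / 2) (π / 2) with hc | hc
    · have h4 := Real.mul_le_sin hy0 hc
      have h5 : 2 / π * (|θ - φ| / 2) ≤ r / 2 := by linarith
      have h6 : |θ - φ| ≤ π * r / 2 := by
        have : 2 / π * (|θ - φ| / 2) = |θ - φ| / π := by ring
        rw [this, div_le_iff₀ hpi] at h5
        linarith
      rw [abs_le] at h6
      left; left
      constructor <;> linarith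
    · have h4 := Real.mul_le_sin (x := π - |θ - φ| / 2) (by linarith) (by linarith)
      rw [Real.sin_pi_sub] at h4
      have h5 : 2 / π * (π - |θ - φ| / 2) ≤ r / 2 := by linarith
      have h6 : 2 * π - |θ - φ| ≤ π * r / 2 := by
        have : 2 / π * (π - |θ - φ| / 2) = (2 * π - |θ - φ|) / π := by field_simp
        rw [this, div_le_iff₀ hpi] at h5
        linarith
      rcases le_or_gt 0 (θ - φ) with h | h
      · rw [abs_of_nonneg h] at h6
        left; right
        constructor <;> linarith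
      · rw [abs_of_neg h] at h6
        right
        constructor <;> linarith
  refine (measure_mono hsub).trans ?_
  refine (measure_union_le _ _).trans ?_
  have h1 : volume (Icc (φ - π * r / 2) (φ + π * r / 2) ∪ Icc (φ + 2 * π - π * r / 2) (2 * π)) ≤
      ENNReal.ofReal (π * r) + ENNReal.ofReal (π * r / 2) := by
    refine (measure_union_le _ _).trans ?_
    rw [Real.volume_Icc, Real.volume_Icc]
    refine add_le_add (ENNReal.ofReal_le_ofReal (by linarith))
      (ENNReal.ofReal_le_ofReal (by linarith))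
  have h2 : volume (Icc 0 (φ - 2 * π + π * r / 2)) ≤ ENNReal.ofReal (π * r / 2) := by
    rw [Real.volume_Icc]
    exact ENNReal.ofReal_le_ofReal (by linarith)
  refine (add_le_add h1 h2).trans ?_
  rw [← ENNReal.ofReal_add (by positivity) (by positivity),
    ← ENNReal.ofReal_add (by positivity) (by positivity)]
  exact ENNReal.ofReal_le_ofReal (by linarith)

/-- Vitali covering for finite families on the circle -/
theorem vitali {ι : Type*} (S : Finset ι) (e : ι → ℂ) (d : ι → ℝ) (hd0 : ∀ i ∈ S, 0 < d i)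
    (hd1 : ∀ i ∈ S, d i ≤ 1) {a : ℝ} (ha : 0 < a) :
    ∃ U : Finset ι, U ⊆ S ∧
      (∀ i ∈ U, ∀ j ∈ U, i ≠ j → Disjoint (closedBall (e i) (a * d i)) (closedBall (e j) (a * d j))) ∧
      ∀ i ∈ S, ∃ k ∈ U, ‖e i - e k‖ ≤ 3 * a * d k ∧ d i ≤ 2 * d k := by
  classical
  obtain ⟨u, hu, hdis, hcov⟩ := Vitali.exists_disjoint_subfamily_covering_enlargement
    (fun i => closedBall (e i) (a * d i)) (S : Set ι) d 2 (by norm_num)
    (fun i hi => (hd0 i hi).le) 1 (fun i hi => hd1 i hi)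
    (fun i hi => ⟨e i, mem_closedBall_self (mul_nonneg ha.le (hd0 i hi).le)⟩)
  refine ⟨S.filter (fun i => i ∈ u), Finset.filter_subset _ _, ?_, ?_⟩
  · intro i hi j hj hij
    exact hdis (Finset.mem_filter.1 hi).2 (Finset.mem_filter.1 hj).2 hij
  · intro i hi
    obtain ⟨k, hk, ⟨x, hx1, hx2⟩, hk2⟩ := hcov i hi
    refine ⟨k, Finset.mem_filter.2 ⟨hu hk, hk⟩, ?_, hk2⟩
    have h1 : dist x (e i) ≤ a * d i := hx1
    have h2 : dist x (e k) ≤ a * d k := hx2
    have h3 : dist (e i) (e k) ≤ dist x (e i) + dist x (e k) := by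
      have := dist_triangle (e i) x (e k)
      rwa [dist_comm (e i) x] at this
    rw [← dist_eq_norm]
    have h4 : a * d i ≤ a * (2 * d k) := mul_le_mul_of_nonneg_left hk2 ha.le
    linarith

theorem arc_disjoint {ι : Type*} (U : Finset ι) (e : ι → ℂ) (ρ : ι → ℝ)
    (h : ∀ i ∈ U, ∀ j ∈ U, i ≠ j → Disjoint (closedBall (e i) (ρ i)) (closedBall (e j) (ρ j))) :
    (U : Set ι).PairwiseDisjoint (fun k => arc (e k) (ρ k)) := by
  intro i hi j hj hij
  have h1 := h i hi j hj hij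
  rw [Set.disjoint_left] at h1
  rw [Function.onFun, Set.disjoint_left]
  rintro θ ⟨hθ1, -⟩ ⟨hθ2, -⟩
  exact h1 (a := Complex.exp (θ * Complex.I))
    (by simpa [dist_eq_norm] using hθ1) (by simpa [dist_eq_norm] using hθ2)

/-- covering sums -/
theorem cover_sum {ι : Type*} (S U : Finset ι) (d : ι → ℝ) (hd0 : ∀ i ∈ S, 0 < d i)
    (R : ι → ι → Prop) (hcov : ∀ i ∈ S, ∃ k ∈ U, R i k) (B : ι → ℝ)
    (hB : ∀ k ∈ U, ∀ T : Finset ι, T ⊆ S → (∀ i ∈ T, R i k) → ∑ i ∈ T, d i ≤ B k) :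
    ∑ i ∈ S, d i ≤ ∑ k ∈ U, B k := by
  classical
  have hstep : ∀ i ∈ S, d i ≤ ∑ k ∈ U, (if R i k then d i else 0) := by
    intro i hi
    obtain ⟨k, hk, hk2⟩ := hcov i hi
    calc d i = (if R i k then d i else 0) := by rw [if_pos hk2]
      _ ≤ _ := Finset.single_le_sum (f := fun k => (if R i k then d i else 0)) (fun j _ => by
            by_cases h : R i j
            · simp only [if_pos h]; exact (hd0 i hi).le
            · simp only [if_neg h]; exact le_rfl) hk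
  calc ∑ i ∈ S, d i ≤ ∑ i ∈ S, ∑ k ∈ U, (if R i k then d i else 0) := Finset.sum_le_sum hstep
    _ = ∑ k ∈ U, ∑ i ∈ S, (if R i k then d i else 0) := Finset.sum_comm
    _ ≤ ∑ k ∈ U, B k := by
        refine Finset.sum_le_sum fun k hk => ?_
        rw [← Finset.sum_filter]
        exact hB k hk _ (Finset.filter_subset _ _) (fun i hi => (Finset.mem_filter.1 hi).2)

/-- (S1): the points near `e0` with small radii have small total radius -/
theorem density {ι : Type*} (N : Finset ι) (e : ι → ℂ) (he : ∀ i ∈ N, ‖e i‖ = 1)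
    (d : ι → ℝ) (hd0 : ∀ i ∈ N, 0 < d i) (hd1 : ∀ i ∈ N, d i ≤ 1) {C D : ℝ} (hC : 0 ≤ C)
    (hD : 0 < D)
    (hcount : ∀ k ∈ N, (((N.filter (fun i => ‖e i - e k‖ ≤ 3 * d k ∧ d i ≤ 2 * d k)).card : ℕ) : ℝ)
      ≤ C * d k * D) {e0 : ℂ} (he0 : ‖e0‖ = 1) {D0 r : ℝ} (hD0 : 0 < D0) (hr : D0 ≤ r)
    (S : Finset ι) (hSN : S ⊆ N) (hS : ∀ i ∈ S, ‖e i - e0‖ ≤ r ∧ d i ≤ D0) :
    ∑ i ∈ S, d i ≤ 8 * π * C * D0 * r * D := by
  classical
  have hpi := Real.pi_pos
  obtain ⟨U, hUS, hdis, hcov⟩ := vitali S e d (fun i hi => hd0 i (hSN hi))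
    (fun i hi => hd1 i (hSN hi)) (a := 1) one_pos
  have h1 : ∑ i ∈ S, d i ≤ ∑ k ∈ U, 2 * C * D * D0 * d k := by
    refine cover_sum S U d (fun i hi => hd0 i (hSN hi))
      (fun i k => ‖e i - e k‖ ≤ 3 * 1 * d k ∧ d i ≤ 2 * d k) hcov _ ?_
    intro k hk T hTS hT
    have hkN := hSN (hUS hk)
    have hT' : T ⊆ N.filter (fun i => ‖e i - e k‖ ≤ 3 * d k ∧ d i ≤ 2 * d k) := by
      intro i hi
      refine Finset.mem_filter.2 ⟨hSN (hTS hi), ?_⟩
      have := hT i hi
      simpa using this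
    have hcard : ((T.card : ℕ) : ℝ) ≤ C * d k * D :=
      (Nat.cast_le.2 (Finset.card_le_card hT')).trans (hcount k hkN)
    calc ∑ i ∈ T, d i ≤ ∑ i ∈ T, 2 * D0 := Finset.sum_le_sum fun i hi => by
            have := (hS i (hTS hi)).2
            linarith
      _ = ((T.card : ℕ) : ℝ) * (2 * D0) := by rw [Finset.sum_const, nsmul_eq_mul]
      _ ≤ (C * d k * D) * (2 * D0) := mul_le_mul_of_nonneg_right hcard (by linarith)
      _ = 2 * C * D * D0 * d k := by ring
  have h2 : ∑ k ∈ U, d k ≤ 2 * π * (2 * r) := by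
    have hdis' := arc_disjoint U e (fun k => 1 * d k) hdis
    have hvol : ENNReal.ofReal (∑ k ∈ U, d k) ≤ ENNReal.ofReal (2 * π * (2 * r)) := by
      rw [ENNReal.ofReal_sum_of_nonneg (fun k hk => (hd0 k (hSN (hUS hk))).le)]
      calc ∑ k ∈ U, ENNReal.ofReal (d k)
          ≤ ∑ k ∈ U, volume (arc (e k) (1 * d k)) := by
            refine Finset.sum_le_sum fun k hk => ?_
            have hkN := hSN (hUS hk)
            rw [one_mul]
            exact arc_volume (he k hkN) (hd1 k hkN)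
        _ = volume (⋃ k ∈ U, arc (e k) (1 * d k)) := by
            rw [measure_biUnion_finset hdis' (fun k _ => measurableSet_arc _ _)]
        _ ≤ volume (arc e0 (2 * r)) := by
            refine measure_mono ?_
            refine iUnion₂_subset fun k hk => ?_
            rintro θ ⟨h3, h4⟩
            refine ⟨?_, h4⟩
            have h3' : ‖Complex.exp (θ * Complex.I) - e k‖ ≤ 1 * d k := h3
            have h5 := hS k (hUS hk)
            show ‖Complex.exp (θ * Complex.I) - e0‖ ≤ 2 * r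
            have h6 : Complex.exp (θ * Complex.I) - e0 =
                (Complex.exp (θ * Complex.I) - e k) + (e k - e0) := by ring
            rw [h6]
            refine (norm_add_le _ _).trans ?_
            linarith [h5.1, h5.2]
        _ ≤ ENNReal.ofReal (2 * π * (2 * r)) := arc_volume_le he0 (by linarith)
    exact (ENNReal.ofReal_le_ofReal_iff (by
      have : 0 ≤ r := by linarith
      positivity)).1 hvol
  calc ∑ i ∈ S, d i ≤ ∑ k ∈ U, 2 * C * D * D0 * d k := h1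
    _ = 2 * C * D * D0 * ∑ k ∈ U, d k := by rw [Finset.mul_sum]
    _ ≤ 2 * C * D * D0 * (2 * π * (2 * r)) := mul_le_mul_of_nonneg_left h2 (by positivity)
    _ = 8 * π * C * D0 * r * D := by ring

/-- (S3): one dyadic level -/
theorem level {ι : Type*} (N : Finset ι) (e : ι → ℂ) (he : ∀ i ∈ N, ‖e i‖ = 1)
    (d : ι → ℝ) (hd0 : ∀ i ∈ N, 0 < d i) (hd1 : ∀ i ∈ N, d i ≤ 1) (g : ℝ → ℝ)
    (hg : IntervalIntegrable g volume 0 (2 * π)) (hg0 : ∀ θ, 0 ≤ g θ) {L : ℝ}
    (hgL : ∫ θ in (0 : ℝ)..(2 * π), g θ ≤ 2 * π * L) {c C D : ℝ} (hc : 0 < c) (hC : 0 ≤ C)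
    (hD : 0 < D)
    (hcount : ∀ k ∈ N, (((N.filter (fun i => ‖e i - e k‖ ≤ 3 * d k ∧ d i ≤ 2 * d k)).card : ℕ) : ℝ)
      ≤ C * d k * D) (m : ℕ) (T : Finset ι) (hTN : T ⊆ N)
    (hT : ∀ i ∈ T, c / 16 * 3 ^ m * (d i) ^ 2 * D ≤ ∫ θ in arc (e i) (2 ^ m * d i), g θ) :
    ∑ i ∈ T, d i ≤ 1536 * π ^ 2 * (C / c) * (2 / 3) ^ m * L := by
  classical
  have hpi := Real.pi_pos
  have h2m : (0 : ℝ) < 2 ^ m := by positivity
  have h2m1 : (1 : ℝ) ≤ 2 ^ m := one_le_pow₀ (by norm_num)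
  have h3m : (0 : ℝ) < 3 ^ m := by positivity
  obtain ⟨U, hUT, hdis, hcov⟩ := vitali T e d (fun i hi => hd0 i (hTN hi))
    (fun i hi => hd1 i (hTN hi)) h2m
  have h1 : ∑ i ∈ T, d i ≤ ∑ k ∈ U, 48 * π * C * 2 ^ m * D * (d k) ^ 2 := by
    refine cover_sum T U d (fun i hi => hd0 i (hTN hi))
      (fun i k => ‖e i - e k‖ ≤ 3 * 2 ^ m * d k ∧ d i ≤ 2 * d k) hcov _ ?_
    intro k hk S hST hS
    have hkN := hTN (hUT hk)
    have hdk := hd0 k hkN
    have := density N e he d hd0 hd1 hC hD hcount (he k hkN) (D0 := 2 * d k)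
      (r := 3 * 2 ^ m * d k) (by positivity) (by nlinarith) S (hST.trans hTN) hS
    refine this.trans (le_of_eq ?_)
    ring
  have hgi : IntegrableOn g (Ioc 0 (2 * π)) :=
    (intervalIntegrable_iff_integrableOn_Ioc_of_le (by positivity)).1 hg
  have hint : ∑ k ∈ U, ∫ θ in arc (e k) (2 ^ m * d k), g θ ≤ 2 * π * L := by
    rw [← integral_biUnion_finset U (fun k _ => measurableSet_arc _ _)
      (arc_disjoint U e (fun k => 2 ^ m * d k) hdis)
      (fun k _ => hgi.mono_set inter_subset_right)]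
    refine le_trans ?_ hgL
    rw [intervalIntegral.integral_of_le (by positivity)]
    refine setIntegral_mono_set hgi (Filter.Eventually.of_forall hg0) ?_
    refine LE.le.eventuallyLE ?_
    exact iUnion₂_subset fun k _ => inter_subset_right
  have hcD : 0 < c / 16 * 3 ^ m * D := by positivity
  have hsq : (c / 16 * 3 ^ m * D) * ∑ k ∈ U, (d k) ^ 2 ≤ 2 * π * L := by
    rw [Finset.mul_sum]
    refine le_trans (Finset.sum_le_sum fun k hk => ?_) hint
    have := hT k (hUT hk)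
    refine le_trans (le_of_eq ?_) this
    ring
  have hsq' : ∑ k ∈ U, (d k) ^ 2 ≤ 2 * π * L / (c / 16 * 3 ^ m * D) := by
    rw [le_div_iff₀ hcD]; linarith
  calc ∑ i ∈ T, d i ≤ ∑ k ∈ U, 48 * π * C * 2 ^ m * D * (d k) ^ 2 := h1
    _ = 48 * π * C * 2 ^ m * D * ∑ k ∈ U, (d k) ^ 2 := by rw [Finset.mul_sum]
    _ ≤ 48 * π * C * 2 ^ m * D * (2 * π * L / (c / 16 * 3 ^ m * D)) :=
        mul_le_mul_of_nonneg_left hsq' (by positivity)
    _ = 1536 * π ^ 2 * (C / c) * (2 / 3) ^ m * L := by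
        rw [div_pow]
        field_simp
        ring

/-- (S2): some dyadic level is big -/
theorem exists_level {e : ℂ} {d : ℝ} (he : ‖e‖ = 1) (hd : 0 < d) (g : ℝ → ℝ)
    (hg : IntervalIntegrable g volume 0 (2 * π)) (hg0 : ∀ θ, 0 ≤ g θ) {c D : ℝ} (hc : 0 < c)
    (hD : 0 < D)
    (hbig : c * D ≤ ∫ θ in (0 : ℝ)..(2 * π), g θ / (d + ‖Complex.exp (θ * Complex.I) - e‖) ^ 2) :
    ∃ m : ℕ, c / 16 * 3 ^ m * d ^ 2 * D ≤ ∫ θ in arc e (2 ^ m * d), g θ := by
  by_contra hcon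
  push Not at hcon
  have hpi := Real.pi_pos
  obtain ⟨M, hM⟩ : ∃ M : ℕ, 2 / d < 2 ^ M := pow_unbounded_of_one_lt _ (by norm_num)
  have hM' : 2 < 2 ^ M * d := by rwa [div_lt_iff₀ hd] at hM
  have hgi : IntegrableOn g (Ioc 0 (2 * π)) :=
    (intervalIntegrable_iff_integrableOn_Ioc_of_le (by positivity)).1 hg
  -- pointwise
  have hpt : ∀ θ ∈ Ioc (0 : ℝ) (2 * π), g θ / (d + ‖Complex.exp (θ * Complex.I) - e‖) ^ 2 ≤
      ∑ m ∈ Finset.range (M + 1), 4 / (4 ^ m * d ^ 2) * (arc e (2 ^ m * d)).indicator g θ := by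
    intro θ hθ
    set ρ := ‖Complex.exp (θ * Complex.I) - e‖ with hρ
    have hρ0 : 0 ≤ ρ := norm_nonneg _
    have hρ2 : ρ ≤ 2 := by
      refine (norm_sub_le _ _).trans ?_
      rw [Complex.norm_exp_ofReal_mul_I, he]; norm_num
    have hex : ∃ m : ℕ, ρ ≤ 2 ^ m * d := ⟨M, by linarith⟩
    classical
    set m := Nat.find hex with hm
    have hm1 : ρ ≤ 2 ^ m * d := Nat.find_spec hex
    have hmM : m ≤ M := Nat.find_min' hex (by linarith)
    have hmem : θ ∈ arc e (2 ^ m * d) := ⟨hm1, hθ⟩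
    have hnn : ∀ k ∈ Finset.range (M + 1),
        0 ≤ 4 / (4 ^ k * d ^ 2) * (arc e (2 ^ k * d)).indicator g θ := by
      intro k _
      refine mul_nonneg (by positivity) ?_
      exact indicator_nonneg (fun x _ => hg0 x) θ
    refine le_trans ?_ (Finset.single_le_sum hnn (Finset.mem_range.2 (by omega : m < M + 1)))
    rw [indicator_of_mem hmem]
    have hkey : (4 : ℝ) ^ m * d ^ 2 ≤ 4 * (d + ρ) ^ 2 := by
      rcases Nat.eq_zero_or_pos m with h0 | h0
      · rw [h0, pow_zero, one_mul]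
        nlinarith
      · have h1 : ¬ (ρ ≤ 2 ^ (m - 1) * d) := Nat.find_min hex (by omega)
        push Not at h1
        have h2 : (4 : ℝ) ^ m * d ^ 2 = 4 * (2 ^ (m - 1) * d) ^ 2 := by
          obtain ⟨k, hk⟩ : ∃ k, m = k + 1 := ⟨m - 1, by omega⟩
          rw [hk, Nat.add_sub_cancel, pow_succ, mul_pow, ← pow_mul, mul_comm k 2, pow_mul]
          norm_num
          ring
        rw [h2]
        have h3 : 0 ≤ (2 : ℝ) ^ (m - 1) * d := by positivity
        have h4 : (2 ^ (m - 1) * d) ^ 2 ≤ (d + ρ) ^ 2 :=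
          pow_le_pow_left₀ h3 (by linarith) 2
        linarith
    have h5 : 1 / (d + ρ) ^ 2 ≤ 4 / (4 ^ m * d ^ 2) := by
      rw [div_le_div_iff₀ (by positivity) (by positivity)]
      linarith
    calc g θ / (d + ρ) ^ 2 = 1 / (d + ρ) ^ 2 * g θ := by ring
      _ ≤ 4 / (4 ^ m * d ^ 2) * g θ := mul_le_mul_of_nonneg_right h5 (hg0 θ)
  have hindint : ∀ m : ℕ, IntegrableOn ((arc e (2 ^ m * d)).indicator g) (Ioc 0 (2 * π)) :=
    fun m => hgi.indicator (measurableSet_arc _ _)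
  have hindval : ∀ m : ℕ, ∫ θ in Ioc 0 (2 * π), (arc e (2 ^ m * d)).indicator g θ =
      ∫ θ in arc e (2 ^ m * d), g θ := by
    intro m
    rw [setIntegral_indicator (measurableSet_arc _ _),
      inter_eq_self_of_subset_right (arc_sub _ _)]
  have hle : ∫ θ in (0 : ℝ)..(2 * π), g θ / (d + ‖Complex.exp (θ * Complex.I) - e‖) ^ 2 ≤
      ∑ m ∈ Finset.range (M + 1), 4 / (4 ^ m * d ^ 2) * ∫ θ in arc e (2 ^ m * d), g θ := by
    rw [intervalIntegral.integral_of_le (by positivity)]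
    have h1 : ∫ θ in Ioc 0 (2 * π), (∑ m ∈ Finset.range (M + 1),
        4 / (4 ^ m * d ^ 2) * (arc e (2 ^ m * d)).indicator g θ) =
        ∑ m ∈ Finset.range (M + 1), 4 / (4 ^ m * d ^ 2) * ∫ θ in arc e (2 ^ m * d), g θ := by
      rw [integral_finsetSum _ (fun m _ => (hindint m).const_mul _)]
      refine Finset.sum_congr rfl fun m _ => ?_
      rw [integral_const_mul, hindval]
    rw [← h1]
    refine integral_mono_of_nonneg ?_ ?_ ?_
    · exact Filter.Eventually.of_forall fun θ => div_nonneg (hg0 θ) (by positivity)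
    · exact integrable_finsetSum _ (fun m _ => (hindint m).const_mul _)
    · exact (ae_restrict_iff' measurableSet_Ioc).2 (Filter.Eventually.of_forall hpt)
  have hgeo : ∀ n : ℕ, ∑ m ∈ Finset.range n, ((3 : ℝ) / 4) ^ m ≤ 4 := by
    intro n
    rw [geom_sum_eq (by norm_num)]
    have : (0 : ℝ) ≤ (3 / 4) ^ n := by positivity
    rw [div_le_iff_of_neg (by norm_num)]
    linarith
  have hlt : ∑ m ∈ Finset.range (M + 1), 4 / (4 ^ m * d ^ 2) * ∫ θ in arc e (2 ^ m * d), g θ <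
      ∑ m ∈ Finset.range (M + 1), c * D / 4 * (3 / 4) ^ m := by
    refine Finset.sum_lt_sum_of_nonempty (by simp) fun m _ => ?_
    have h1 := hcon m
    have h2 : 0 < 4 / (4 ^ m * d ^ 2) := by positivity
    calc 4 / (4 ^ m * d ^ 2) * ∫ θ in arc e (2 ^ m * d), g θ
        < 4 / (4 ^ m * d ^ 2) * (c / 16 * 3 ^ m * d ^ 2 * D) := mul_lt_mul_of_pos_left h1 h2
      _ = c * D / 4 * (3 / 4) ^ m := by
          rw [div_pow]
          field_simp
          ring
  have h3 : ∑ m ∈ Finset.range (M + 1), c * D / 4 * (3 / 4) ^ m ≤ c * D := by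
    rw [← Finset.mul_sum]
    have := mul_le_mul_of_nonneg_left (hgeo (M + 1)) (by positivity : 0 ≤ c * D / 4)
    linarith
  linarith

/-- the zones, second form -/
theorem zone_sum2 {ι : Type*} (N : Finset ι) (e : ι → ℂ) (he : ∀ i ∈ N, ‖e i‖ = 1)
    (d : ι → ℝ) (hd0 : ∀ i ∈ N, 0 < d i) (hd1 : ∀ i ∈ N, d i ≤ 1) (g : ℝ → ℝ)
    (hg : IntervalIntegrable g volume 0 (2 * π)) (hg0 : ∀ θ, 0 ≤ g θ) {L : ℝ}
    (hgL : ∫ θ in (0 : ℝ)..(2 * π), g θ ≤ 2 * π * L) {c C D : ℝ} (hc : 0 < c) (hC : 0 ≤ C)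
    (hD : 0 < D)
    (hbig : ∀ i ∈ N, c * D ≤
      ∫ θ in (0 : ℝ)..(2 * π), g θ / (d i + ‖Complex.exp (θ * Complex.I) - e i‖) ^ 2)
    (hcount : ∀ k ∈ N, (((N.filter (fun i => ‖e i - e k‖ ≤ 3 * d k ∧ d i ≤ 2 * d k)).card : ℕ) : ℝ)
      ≤ C * d k * D) :
    ∑ i ∈ N, d i ≤ 50000 * C / c * L := by
  classical
  have hpi := Real.pi_pos
  have hL : 0 ≤ L := by
    have h1 : 0 ≤ ∫ θ in (0 : ℝ)..(2 * π), g θ :=
      intervalIntegral.integral_nonneg (by positivity) (fun θ _ => hg0 θ)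
    have h2 : 0 ≤ 2 * π * L := h1.trans hgL
    exact nonneg_of_mul_nonneg_right h2 (by positivity)
  have hex : ∀ i : ι, ∃ m : ℕ, i ∈ N → c / 16 * 3 ^ m * (d i) ^ 2 * D ≤
      ∫ θ in arc (e i) (2 ^ m * d i), g θ := by
    intro i
    by_cases hi : i ∈ N
    · obtain ⟨m, hm⟩ := exists_level (he i hi) (hd0 i hi) g hg hg0 hc hD (hbig i hi)
      exact ⟨m, fun _ => hm⟩
    · exact ⟨0, fun h => absurd h hi⟩
  choose f hf using hex
  set M := N.sup f + 1 with hM
  have hmaps : ∀ i ∈ N, f i ∈ Finset.range M := by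
    intro i hi
    rw [Finset.mem_range]
    have : f i ≤ N.sup f := Finset.le_sup hi
    omega
  have hgeo : ∑ m ∈ Finset.range M, ((2 : ℝ) / 3) ^ m ≤ 3 := by
    rw [geom_sum_eq (by norm_num)]
    have : (0 : ℝ) ≤ (2 / 3) ^ M := by positivity
    rw [div_le_iff_of_neg (by norm_num)]
    linarith
  have hpi2 : π ^ 2 ≤ 10 := by
    have h1 := Real.pi_lt_d2
    nlinarith
  calc ∑ i ∈ N, d i = ∑ m ∈ Finset.range M, ∑ i ∈ N.filter (fun i => f i = m), d i :=
        (Finset.sum_fiberwise_of_maps_to hmaps _).symm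
    _ ≤ ∑ m ∈ Finset.range M, 1536 * π ^ 2 * (C / c) * (2 / 3) ^ m * L := by
        refine Finset.sum_le_sum fun m _ => ?_
        refine level N e he d hd0 hd1 g hg hg0 hgL hc hC hD hcount m _
          (Finset.filter_subset _ _) ?_
        intro i hi
        obtain ⟨hi1, hi2⟩ := Finset.mem_filter.1 hi
        rw [← hi2]
        exact hf i hi1
    _ = 1536 * π ^ 2 * (C / c) * L * ∑ m ∈ Finset.range M, ((2 : ℝ) / 3) ^ m := by
        rw [Finset.mul_sum]
        refine Finset.sum_congr rfl fun m _ => ?_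
        ring
    _ ≤ 1536 * π ^ 2 * (C / c) * L * 3 :=
        mul_le_mul_of_nonneg_left hgeo (by positivity)
    _ = 4608 * ((C / c) * L) * π ^ 2 := by ring
    _ ≤ 4608 * ((C / c) * L) * 10 := mul_le_mul_of_nonneg_left hpi2 (by positivity)
    _ ≤ 50000 * C / c * L := by
        have h1 : 0 ≤ (C / c) * L := by positivity
        have h2 : 50000 * C / c * L = 50000 * ((C / c) * L) := by ring
        rw [h2]
        nlinarith

end H15.LB
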